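import Pool.Agent.MWGX.StmtsB

set_option autoImplicit false

/-!
# Squad MWGX, row CVG (helper46): the main case, covering (twin of MWGN.MCV)
-/

namespace Pool.Agent.MWGX.H46

open Pool.Agent.Helper14_MV Pool.Agent.Helper2_MV
open Pool.Agent.MWK (pre pre_append pre_append_mem pre_of_count)
open Pool.Agent.MWGN (nn Nm WC WT Tau Ns nl sg)
open Pool.Agent.MWGX

theorem ghc_split (g u : ℕ → List ℕ) (N i : ℕ) (hi : i < N) :
    ∃ U V, ghc g u N = U ++ (g i ++ V) := by
  unfold ghc
  have h1 : i ∈ List.range N := List.mem_range.2 hi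
  obtain ⟨s, t, hst⟩ := List.append_of_mem h1
  rw [hst, List.flatMap_append, List.flatMap_cons]
  exact ⟨s.flatMap (fun i => u i ++ g i) ++ u i, t.flatMap (fun i => u i ++ g i) ++ u N,
    by simp only [List.append_assoc]⟩

theorem cvg (h1 : MpgStmt) (hcvk : CvkStmt) : CvgStmt := by
  intro ν m nc hm1 hm2 p E F A G B H w hw hG2 hE2 hAE hBE hWC hx hy N g u hG hpin hcon hA hB
  obtain ⟨-, -, hL, hC⟩ := h1 ν m nc hm2 p E F A G B H w hw hG2 hE2 hAE hBE hWC hx hy
  have hcount : ∀ i ≤ m + 1, G.count (ν.L i) = 1 := fun i hi => (hL i hi).2.2.2.2.2.1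
  have hmem : ∀ i ≤ m + 1, ν.L i ∈ G := by
    intro i hi
    rw [← List.count_pos_iff, hcount i hi]
    exact Nat.one_pos
  have hord : ∀ i j, i < j → j ≤ m + 1 → ν.L i ∈ pre G (ν.L j) := by
    intro i j hij hj
    by_cases hi : i < nc
    · obtain ⟨-, c1, c2⟩ := hC i hi
      apply pre_of_count (x := ν.C i) (hmem i (by omega))
      have e1 : (pre G (ν.L i)).count (ν.C i) = 0 := List.count_eq_zero.mpr (c1 i le_rfl)
      have e2 : 0 < (pre G (ν.L j)).count (ν.C i) :=
        List.count_pos_iff.mpr (c2 j hij (by omega))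
      omega
    · have e1 : nc = m := by omega
      have e2 : i = m := by omega
      have e3 : j = m + 1 := by omega
      subst e2
      subst e3
      exact hB e1
  have hnh : ∀ i ≤ N, ∀ j ≤ m + 1, ν.L j ∉ u i := by
    intro i hi j hj hm
    have := hcon i hi _ hm
    have := hcount j hj
    omega
  have hpre : ∀ i < N, ∃ U, ∀ j ≤ m + 1, ν.L j ∈ g i →
      pre G (ν.L j) = U ++ pre (g i) (ν.L j) := by
    intro i hi
    obtain ⟨U, V, hv⟩ := ghc_split g u N i hi
    refine ⟨U, fun j hj hm => ?_⟩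
    have hnu : ν.L j ∉ U := by
      intro hu
      have e1 := hcount j hj
      rw [hG, hv, List.count_append, List.count_append] at e1
      have e2 : 0 < U.count (ν.L j) := List.count_pos_iff.mpr hu
      have e3 : 0 < (g i).count (ν.L j) := List.count_pos_iff.mpr hm
      omega
    rw [hG, hv, pre_append hnu, pre_append_mem hm]
  have hng : ∀ i < N, ∀ j j', j < j' → j' ≤ m + 1 → ¬ (ν.L j ∈ g i ∧ ν.L j' ∈ g i) := by
    rintro i hi j j' hjj hj' ⟨k1, k2⟩
    obtain ⟨U, hU⟩ := hpre i hi
    by_cases hj : j < nc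
    · obtain ⟨c0, c1, c2⟩ := hC j hj
      have c1' := c1 j le_rfl
      have c2' := c2 j' hjj hj'
      rw [hU j (by omega) k1] at c1'
      rw [hU j' hj' k2] at c2'
      rcases List.mem_append.mp c2' with h2 | h2
      · exact c1' (List.mem_append_left _ h2)
      · exact c0 (hpin i hi _ ((Pool.Agent.MWK.pre_prefix (g i) (ν.L j')).subset h2))
    · have e1 : nc = m := by omega
      have e2 : j = m := by omega
      have e3 : j' = m + 1 := by omega
      subst e2
      subst e3
      exact hA e1 i hi ⟨k1, k2⟩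
  subst hG
  exact hcvk N (m + 1) g u ν.L hmem hord hnh hng

end Pool.Agent.MWGX.H46
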