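import Pool.Agent.MWGX.StmtsA

set_option autoImplicit false

/-!
# Squad MWGX, row EAV (helper46): an exchange of `a` and `b` in `β` gives `Ea c`
-/

namespace Pool.Agent.MWGX.H46

open Pool.Agent.Helper14_MV Pool.Agent.Helper2_MV
open Pool.Agent.MWK (pre)
open Pool.Agent.MWF (gaml)
open Pool.Agent.MWGN (nn)
open Pool.Agent.MWGQ (pw Gn E0 A0 P0)
open Pool.Agent.MWGR (X It Kaba F1 Dm Ec Es Ea Al0 Rh FE)
open Pool.Agent.MWGX

/-- words in `1`, `2` with the same letters and the same counts modulo `n` -/
structure Ev (n : ℕ) (A A' : List ℕ) : Prop where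
  l : ∀ d ∈ A, d = 1 ∨ d = 2
  e : ∀ d, (d ∈ A ↔ d ∈ A') ∧ A.count d ≡ A'.count d [MOD n]

theorem Ev.mk' {n : ℕ} {A A' : List ℕ} (h : ∀ d ∈ A, d = 1 ∨ d = 2) (h' : ∀ d ∈ A', d = 1 ∨ d = 2)
    (m1 : 1 ∈ A ↔ 1 ∈ A') (m2 : 2 ∈ A ↔ 2 ∈ A') (c1 : A.count 1 ≡ A'.count 1 [MOD n])
    (c2 : A.count 2 ≡ A'.count 2 [MOD n]) : Ev n A A' := by
  refine ⟨h, fun d => ?_⟩
  by_cases h1 : d = 1
  · subst h1; exact ⟨m1, c1⟩
  · by_cases h2 : d = 2
    · subst h2; exact ⟨m2, c2⟩
    · have n1 : d ∉ A := fun hd => by rcases h d hd with h | h <;> contradiction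
      have n2 : d ∉ A' := fun hd => by rcases h' d hd with h | h <;> contradiction
      refine ⟨⟨fun hd => absurd hd n1, fun hd => absurd hd n2⟩, ?_⟩
      rw [List.count_eq_zero_of_not_mem n1, List.count_eq_zero_of_not_mem n2]

theorem Ev.rfl' {n : ℕ} {A : List ℕ} (h : ∀ d ∈ A, d = 1 ∨ d = 2) : Ev n A A :=
  ⟨h, fun _ => ⟨Iff.rfl, Nat.ModEq.refl _⟩⟩

theorem mem_r1 {m d : ℕ} (h : d ∈ List.replicate m 1) : d = 1 ∨ d = 2 :=
  Or.inl (List.eq_of_mem_replicate h)

theorem nt {n : ℕ} {β : FIC} (hN : NrwStmt) (hG : Gn n β) {U A B C A' B' C' : List ℕ}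
    (h1 : 1 ∈ U) (h2 : 2 ∈ U) (hA : Ev n A A') (hB : Ev n B B') (hC : Ev n C C') :
    RR β (U ++ 3 :: (A ++ 4 :: (B ++ 5 :: C))) (U ++ 3 :: (A' ++ 4 :: (B' ++ 5 :: C'))) := by
  have hm : ∀ (Q D : List ℕ), (∀ d ∈ D, d = 1 ∨ d = 2) → ∀ d ∈ D, d ∈ U ++ Q := by
    intro Q D hD d hd
    apply List.mem_append_left
    rcases hD d hd with h | h
    · rw [h]; exact h1
    · rw [h]; exact h2
  have s1 := hN n β hG (U ++ [3]) A A' (4 :: (B ++ 5 :: C)) (hm _ _ hA.l) hA.e
  have s2 := hN n β hG (U ++ 3 :: (A' ++ [4])) B B' (5 :: C) (hm _ _ hB.l) hB.e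
  have s3 := hN n β hG (U ++ 3 :: (A' ++ 4 :: (B' ++ [5]))) C C' [] (hm _ _ hC.l) hC.e
  simp only [List.append_assoc, List.cons_append, List.nil_append, List.append_nil] at s1 s2 s3
  exact β.trans s1 (β.trans s2 s3)

theorem filt {W : List ℕ} (h : ∀ d ∈ W, d = 1 ∨ d = 2) :
    W.filter (fun d => decide (d = 1 ∨ d = 3 ∨ d = 4 ∨ d = 5)) = List.replicate (W.count 1) 1 := by
  induction W with
  | nil => rfl
  | cons a W ih =>
    have h2 := ih (fun d hd => h d (List.mem_cons_of_mem _ hd))
    rcases h a List.mem_cons_self with rfl | rfl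
    · rw [List.filter_cons_of_pos (by decide), h2, List.count_cons_self, List.replicate_succ]
    · rw [List.filter_cons_of_neg (by decide), h2, List.count_cons_of_ne (by decide)]

theorem eav (heat : EatStmt) (hxch : XchStmt) (_hpwx : MWGQ.PwxStmt) (hcnt : MWGQ.CntStmt)
    (hN : NrwStmt) : EavStmt := by
  intro n β δ hG hIt hDl w w' hw kw kw' hF h12 h12' c hc
  obtain ⟨i, j, k, e, g, W, he, hg, h2W, hW, hAb, hlit, -⟩ := heat w kw
  obtain ⟨hi, hij, hfw⟩ := hlit h12
  obtain ⟨i', j', k', e', g', W', he', hg', h2W', hW', hAb', -, hlit'⟩ := heat w' kw'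
  obtain ⟨hi', hij', hfw'⟩ := hlit' h12'
  have hf := hw.filter (fun d => decide (d ≤ 5))
  rw [hfw, hfw'] at hf
  have hj : j ≡ c [MOD δ] := by
    have h1 : i + j ≡ i + c [MOD δ] := by rw [hij, hi]; exact hc
    exact Nat.ModEq.add_left_cancel' i h1
  have no : ∀ (V : List ℕ), (∀ d ∈ V, d = 1 ∨ d = 2) → ∀ a b x : ℕ, x = 0 ∨ x = 3 →
      x ∉ List.replicate a 1 ++ 4 :: (V ++ 5 :: List.replicate b 1) := by
    intro V hV a b x hx hmem
    rw [List.mem_append, List.mem_cons, List.mem_append, List.mem_cons] at hmem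
    rcases hmem with h | h | h | h | h
    · have := List.eq_of_mem_replicate h; omega
    · omega
    · have := hV x h; omega
    · omega
    · have := List.eq_of_mem_replicate h; omega
  have hx := hxch n β δ hG hIt hDl i j k i' j' k' _ _ (by
      rw [List.mem_append]; left; exact List.mem_replicate.2 ⟨by omega, rfl⟩) (by simp [h2W]) (by
      rw [List.mem_append]; left; exact List.mem_replicate.2 ⟨by omega, rfl⟩) (by simp [h2W'])
      (no W hW e g 0 (Or.inl rfl)) (no W hW e g 3 (Or.inr rfl))
      (no W' hW' e' g' 0 (Or.inl rfl)) (no W' hW' e' g' 3 (Or.inr rfl)) hf c hj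
  -- the two prefixes
  set L : List ℕ := X n ++ 1 :: (X (n + c) ++ 2 :: X n) with hL
  set R : List ℕ := X (n + c) ++ 2 :: (X (n + (n - 1) * c) ++ 1 :: X (n + c)) with hR
  have hL1 : 1 ∈ L := by simp [hL]
  have hL2 : 2 ∈ L := by simp [hL]
  have hR1 : 1 ∈ R := by simp [hR]
  have hR2 : 2 ∈ R := by simp [hR]
  have hlL : ∀ T : List ℕ, X n ++ 1 :: (X (n + c) ++ 2 :: (X n ++ T)) = L ++ T := fun T => by
    simp [hL, List.append_assoc]
  have hlR : ∀ T : List ℕ, X (n + c) ++ 2 :: (X (n + (n - 1) * c) ++ 1 :: (X (n + c) ++ T)) =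
      R ++ T := fun T => by simp [hR, List.append_assoc]
  rw [hlL, hlR] at hx
  set m := W.count 1 with hm
  set l := W.count 2 with hl
  set m' := W'.count 1 with hm'
  set l' := W'.count 2 with hl'
  have hl1 : 1 ≤ l := List.count_pos_iff.2 h2W
  have hl1' : 1 ≤ l' := List.count_pos_iff.2 h2W'
  have hll : l ≡ l' [MOD n] := by
    have h1 := (hcnt n β hG _ _ hf 2).2.2
    simp only [List.count_append, List.count_cons, List.count_replicate] at h1
    simp at h1
    rw [← hl, ← hl'] at h1
    exact Nat.ModEq.add_right_cancel' 1 h1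
  -- the filtered relation
  have hS : RR β (1 :: 3 :: (List.replicate e 1 ++ 4 :: (List.replicate m 1 ++ 5 :: List.replicate g 1)))
      (1 :: 3 :: (List.replicate e' 1 ++ 4 :: (List.replicate m' 1 ++ 5 :: List.replicate g' 1))) := by
    have h1 := hf.filter (fun d => decide (d = 1 ∨ d = 3 ∨ d = 4 ∨ d = 5))
    have hX : ∀ a : ℕ, (X a).filter (fun d => decide (d = 1 ∨ d = 3 ∨ d = 4 ∨ d = 5)) = [] := by
      intro a
      rw [List.filter_eq_nil_iff]
      intro d hd
      rw [List.eq_of_mem_replicate hd]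
      decide
    have hO : ∀ a : ℕ, (List.replicate a 1).filter
        (fun d => decide (d = 1 ∨ d = 3 ∨ d = 4 ∨ d = 5)) = List.replicate a 1 := by
      intro a
      rw [List.filter_eq_self]
      intro d hd
      rw [List.eq_of_mem_replicate hd]
      decide
    simp only [List.filter_append, List.filter_cons, hX, hO, filt hW, filt hW'] at h1
    simpa using h1
  have hS2 : RR β (R ++ 3 :: (List.replicate e 1 ++ 4 :: ((List.replicate m 1 ++
      List.replicate l' 2) ++ 5 :: List.replicate g 1)))
      (R ++ 3 :: (List.replicate e' 1 ++ 4 :: ((List.replicate m' 1 ++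
      List.replicate l' 2) ++ 5 :: List.replicate g' 1))) := by
    have h1 := hS.sub (fun d => if d = 3 then X (n + c) ++ [3] else if d = 5 then
      List.replicate l' 2 ++ [5] else [d])
    have hO : ∀ a : ℕ, (List.replicate a 1).flatMap (fun d => if d = 3 then X (n + c) ++ [3] else
        if d = 5 then List.replicate l' 2 ++ [5] else [d]) = List.replicate a 1 := by
      intro a
      induction a with
      | zero => rfl
      | succ a ih => rw [List.replicate_succ, List.flatMap_cons, ih]; rfl
    simp only [List.flatMap_append, List.flatMap_cons, hO] at h1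
    have h2 := (RR.refl (β := β) (X (n + c) ++ 2 :: X (n + (n - 1) * c))).append h1
    simpa [hR, List.append_assoc] using h2
  -- equal tails
  have hmW' : 1 ∈ W' ↔ 1 ∈ List.replicate m' 1 ++ List.replicate l' 2 := by
    rw [List.mem_append, List.mem_replicate, List.mem_replicate, ← List.count_pos_iff, ← hm']
    constructor
    · intro h; left; exact ⟨by omega, rfl⟩
    · rintro (h | h)
      · omega
      · omega
  have a2 : RR β (R ++ 3 :: (List.replicate e' 1 ++ 4 :: (W' ++ 5 :: List.replicate g' 1)))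
      (R ++ 3 :: (List.replicate e' 1 ++ 4 :: ((List.replicate m' 1 ++
      List.replicate l' 2) ++ 5 :: List.replicate g' 1))) := by
    apply nt hN hG hR1 hR2 (Ev.rfl' (fun _ => mem_r1)) _ (Ev.rfl' (fun _ => mem_r1))
    apply Ev.mk' hW'
    · intro d hd
      rw [List.mem_append] at hd
      rcases hd with hd | hd
      · exact mem_r1 hd
      · exact Or.inr (List.eq_of_mem_replicate hd)
    · exact hmW'
    · constructor
      · intro _
        rw [List.mem_append]
        right
        exact List.mem_replicate.2 ⟨by omega, rfl⟩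
      · intro _
        exact h2W'
    · rw [List.count_append, List.count_replicate, List.count_replicate]
      simp [hm', Nat.ModEq]
    · rw [List.count_append, List.count_replicate, List.count_replicate]
      simp [hl', Nat.ModEq]
  have a4 : RR β (R ++ 3 :: (List.replicate e 1 ++ 4 :: ((List.replicate m 1 ++
      List.replicate l' 2) ++ 5 :: List.replicate g 1)))
      (R ++ 3 :: (List.replicate e 1 ++ 4 :: (W ++ 5 :: List.replicate g 1))) := by
    apply nt hN hG hR1 hR2 (Ev.rfl' (fun _ => mem_r1)) _ (Ev.rfl' (fun _ => mem_r1))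
    apply Ev.mk' _ hW
    · rw [List.mem_append, List.mem_replicate, List.mem_replicate, ← List.count_pos_iff, ← hm]
      constructor
      · rintro (h | h)
        · omega
        · omega
      · intro h; left; exact ⟨by omega, rfl⟩
    · constructor
      · intro _
        exact h2W
      · intro _
        rw [List.mem_append]
        right
        exact List.mem_replicate.2 ⟨by omega, rfl⟩
    · rw [List.count_append, List.count_replicate, List.count_replicate]
      simp [hm, Nat.ModEq]
    · rw [List.count_append, List.count_replicate, List.count_replicate]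
      simp
      exact hll.symm
    · intro d hd
      rw [List.mem_append] at hd
      rcases hd with hd | hd
      · exact mem_r1 hd
      · exact Or.inr (List.eq_of_mem_replicate hd)
  have a5 : RR β (L ++ 3 :: (List.replicate e 1 ++ 4 :: (W ++ 5 :: List.replicate g 1)))
      (R ++ 3 :: (List.replicate e 1 ++ 4 :: (W ++ 5 :: List.replicate g 1))) :=
    β.trans hx (β.trans a2 (β.trans hS2.symm a4))
  -- standard exponents
  obtain ⟨n', rfl⟩ : ∃ n', n = n' + 1 := ⟨n - 1, by have := hG.pos; omega⟩
  have hme : ∀ a : ℕ, a + (n' * a + 1) ≡ 1 [MOD n' + 1] := by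
    intro a
    have h1 : a + (n' * a + 1) = 1 + (n' + 1) * a := by ring
    rw [h1]
    exact (Nat.modEq_iff_dvd' (by omega)).2 ⟨a, by rw [Nat.add_sub_cancel_left]⟩ |>.symm
  have hm0 : m + n' * m ≡ 0 [MOD n' + 1] := by
    have h1 : m + n' * m = (n' + 1) * m := by ring
    rw [h1]
    exact (Nat.modEq_zero_iff_dvd).2 ⟨m, rfl⟩
  have hmn : n' + 1 ≡ 0 [MOD n' + 1] := (Nat.modEq_zero_iff_dvd).2 (dvd_refl _)
  have hap : ∀ (A B : List ℕ), (∀ d ∈ A, d = 1 ∨ d = 2) → (∀ d ∈ B, d = 1 ∨ d = 2) →
      ∀ d ∈ A ++ B, d = 1 ∨ d = 2 := by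
    intro A B hA hB d hd
    rw [List.mem_append] at hd
    rcases hd with hd | hd
    · exact hA d hd
    · exact hB d hd
  have hr1 : ∀ (a : ℕ), ∀ d ∈ List.replicate a 1, d = 1 ∨ d = 2 := fun _ _ hd => mem_r1 hd
  have hr2 : ∀ (a : ℕ), ∀ d ∈ List.replicate a 2, d = 1 ∨ d = 2 := fun _ _ hd =>
    Or.inr (List.eq_of_mem_replicate hd)
  have h1s : ∀ d ∈ ([1] : List ℕ), d = 1 ∨ d = 2 := by simp
  have h2s : ∀ d ∈ ([2] : List ℕ), d = 1 ∨ d = 2 := by simp
  have h11s : ∀ d ∈ ([1, 1] : List ℕ), d = 1 ∨ d = 2 := by simp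
  -- one letter tails
  have ev1 : ∀ a : ℕ, 1 ≤ a → Ev (n' + 1) (List.replicate a 1 ++ List.replicate (n' * a + 1) 1) [1] := by
    intro a ha
    apply Ev.mk' (hap _ _ (hr1 _) (hr1 _)) h1s
    · simp
    · simp
    · rw [List.count_append, List.count_replicate_self, List.count_replicate_self]
      simpa using hme a
    · rw [List.count_append, List.count_replicate, List.count_replicate]
      simp [Nat.ModEq]
  have ev11 : Ev (n' + 1) (List.replicate n' 1 ++ [1, 1]) [1] := by
    apply Ev.mk' (hap _ _ (hr1 _) h11s) h1s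
    · simp
    · simp
    · rw [List.count_append, List.count_replicate_self]
      simp only [List.count_cons_self, List.count_nil]
      have h1 : n' + 2 = 1 + (n' + 1) := by ring
      show n' + 2 ≡ 1 [MOD n' + 1]
      rw [h1]
      exact (hmn.add_left 1)
    · rw [List.count_append, List.count_replicate]
      simp [Nat.ModEq]
  have ev11' : Ev (n' + 1) ([1, 1] ++ List.replicate n' 1) [1] := by
    apply Ev.mk' (hap _ _ h11s (hr1 _)) h1s
    · simp
    · simp
    · rw [List.count_append, List.count_replicate_self]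
      simp only [List.count_cons_self, List.count_nil]
      have h1 : 2 + n' = 1 + (n' + 1) := by ring
      show 2 + n' ≡ 1 [MOD n' + 1]
      rw [h1]
      exact (hmn.add_left 1)
    · rw [List.count_append, List.count_replicate]
      simp [Nat.ModEq]
  have evsymm : ∀ {A A' : List ℕ}, (∀ d ∈ A', d = 1 ∨ d = 2) → Ev (n' + 1) A A' → Ev (n' + 1) A' A :=
    fun h' h => ⟨h', fun d => ⟨(h.e d).1.symm, (h.e d).2.symm⟩⟩
  have evtrans : ∀ {A B C : List ℕ}, Ev (n' + 1) A B → Ev (n' + 1) B C → Ev (n' + 1) A C :=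
    fun h1 h2 => ⟨h1.l, fun d => ⟨(h1.e d).1.trans (h2.e d).1, (h1.e d).2.trans (h2.e d).2⟩⟩
  have fin : ∀ U : List ℕ, 1 ∈ U → 2 ∈ U →
      RR β (U ++ 3 :: ((List.replicate e 1 ++ List.replicate (n' * e + 1) 1) ++ 4 :: ((W ++
        (List.replicate (n' * l + 1) 2 ++ List.replicate (n' * m) 1)) ++ 5 ::
          (List.replicate g 1 ++ List.replicate (n' * g + 1) 1))))
        (U ++ 3 :: ([1] ++ 4 :: ([2] ++ 5 :: [1]))) := by
    intro U hU1 hU2
    have hWl : ∀ d ∈ W ++ (List.replicate (n' * l + 1) 2 ++ List.replicate (n' * m) 1),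
        d = 1 ∨ d = 2 := hap _ _ hW (hap _ _ (hr2 _) (hr1 _))
    have c2 : (W ++ (List.replicate (n' * l + 1) 2 ++ List.replicate (n' * m) 1)).count 2 ≡
        1 [MOD n' + 1] := by
      rw [List.count_append, List.count_append, List.count_replicate_self, List.count_replicate,
        ← hl]
      simpa using hme l
    have c1 : (W ++ (List.replicate (n' * l + 1) 2 ++ List.replicate (n' * m) 1)).count 1 ≡
        0 [MOD n' + 1] := by
      rw [List.count_append, List.count_append, List.count_replicate_self, List.count_replicate,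
        ← hm]
      simpa using hm0
    by_cases h1W : 1 ∈ W
    · have hnAb : ¬ Ab w := fun h => hAb.1 h h1W
      have hF1 : F1 (n' + 1) (RR β) := by
        rcases hF with h | h
        · exact h
        · exact absurd h.1 hnAb
      have s1 := nt hN hG (A := List.replicate e 1 ++ List.replicate (n' * e + 1) 1)
        (A' := List.replicate n' 1 ++ [1, 1])
        (B := W ++ (List.replicate (n' * l + 1) 2 ++ List.replicate (n' * m) 1))
        (B' := List.replicate (n' + 1) 1 ++ [2])
        (C := List.replicate g 1 ++ List.replicate (n' * g + 1) 1)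
        (C' := [1, 1] ++ List.replicate n' 1) hU1 hU2
        (evtrans (ev1 e he) (evsymm h1s ev11))
        (Ev.mk' hWl (hap _ _ (hr1 _) h2s) (by simp [h1W]) (by simp [h2W]) (by
          refine c1.trans ?_
          rw [List.count_append, List.count_replicate_self]
          simp) (by
          refine c2.trans ?_
          rw [List.count_append, List.count_replicate]
          simp [Nat.ModEq]))
        (evtrans (ev1 g hg) (evsymm h1s ev11'))
      have f1 := hF1.sub (fun d => if d = 0 then [1] else if d = 2 then [4] else [2, 5])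
      have hX : (X (n' + 1)).flatMap (fun d => if d = 0 then [1] else if d = 2 then [4] else [2, 5]) =
          List.replicate (n' + 1) 1 := by
        rw [flat_rep]
        simp [pw]
      simp only [List.flatMap_append, List.flatMap_cons, hX, List.flatMap_nil] at f1
      have s2 := ((RR.refl (β := β) (U ++ 3 :: List.replicate n' 1)).append f1.symm).append
        (RR.refl (β := β) (List.replicate n' 1))
      have s3 := nt hN hG (A := List.replicate n' 1 ++ [1, 1]) (A' := [1]) (B := [2]) (B' := [2])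
        (C := [1, 1] ++ List.replicate n' 1) (C' := [1]) hU1 hU2 ev11 (Ev.rfl' h2s) ev11'
      have s2' : RR β (U ++ 3 :: ((List.replicate n' 1 ++ [1, 1]) ++ 4 ::
          ((List.replicate (n' + 1) 1 ++ [2]) ++ 5 :: ([1, 1] ++ List.replicate n' 1))))
          (U ++ 3 :: ((List.replicate n' 1 ++ [1, 1]) ++ 4 ::
          ([2] ++ 5 :: ([1, 1] ++ List.replicate n' 1)))) := by
        simpa [List.append_assoc] using s2
      exact β.trans s1 (β.trans s2' s3)
    · have hm0' : m = 0 := by
        rw [hm]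
        exact List.count_eq_zero_of_not_mem h1W
      apply nt hN hG hU1 hU2 (ev1 e he) _ (ev1 g hg)
      apply Ev.mk' hWl h2s
      · simp [h1W, hm0']
      · simp [h2W]
      · refine c1.trans ?_
        simp [Nat.ModEq]
      · refine c2.trans ?_
        simp [Nat.ModEq]
  -- the substitution
  have a6 := (a5.sub (fun d => if d = 4 then List.replicate (n' * e + 1) 1 ++ [4] else
    if d = 5 then (List.replicate (n' * l + 1) 2 ++ List.replicate (n' * m) 1) ++ [5] else [d])).append
    (RR.refl (β := β) (List.replicate (n' * g + 1) 1))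
  have hid : ∀ V : List ℕ, (∀ d ∈ V, d ≤ 3) → V.flatMap (fun d => if d = 4 then
      List.replicate (n' * e + 1) 1 ++ [4] else if d = 5 then (List.replicate (n' * l + 1) 2 ++
      List.replicate (n' * m) 1) ++ [5] else [d]) = V := by
    intro V hV
    induction V with
    | nil => rfl
    | cons a V ih =>
      have ha := hV a List.mem_cons_self
      rw [List.flatMap_cons, ih (fun d hd => hV d (List.mem_cons_of_mem _ hd)),
        if_neg (by omega), if_neg (by omega)]
      rfl
  have hLid := hid L (by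
    intro d hd
    simp [hL] at hd
    omega)
  have hRid := hid R (by
    intro d hd
    simp [hR] at hd
    omega)
  have hWid := hid W (by
    intro d hd
    rcases hW d hd with h | h <;> omega)
  have hrid : ∀ a : ℕ, _ := fun a => hid (List.replicate a 1) (by
    intro d hd
    rw [List.eq_of_mem_replicate hd]
    omega)
  simp only [List.flatMap_append, List.flatMap_cons, hLid, hRid, hWid, hrid] at a6
  have a7 : RR β (L ++ 3 :: ((List.replicate e 1 ++ List.replicate (n' * e + 1) 1) ++ 4 :: ((W ++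
        (List.replicate (n' * l + 1) 2 ++ List.replicate (n' * m) 1)) ++ 5 ::
          (List.replicate g 1 ++ List.replicate (n' * g + 1) 1))))
      (R ++ 3 :: ((List.replicate e 1 ++ List.replicate (n' * e + 1) 1) ++ 4 :: ((W ++
        (List.replicate (n' * l + 1) 2 ++ List.replicate (n' * m) 1)) ++ 5 ::
          (List.replicate g 1 ++ List.replicate (n' * g + 1) 1)))) := by
    simpa [List.append_assoc, -List.replicate_append_replicate] using a6
  have a8 : RR β (L ++ 3 :: ([1] ++ 4 :: ([2] ++ 5 :: [1]))) (R ++ 3 :: ([1] ++ 4 :: ([2] ++ 5 :: [1]))) :=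
    β.trans (fin L hL1 hL2).symm (β.trans a7 (fin R hR1 hR2))
  show RR β (X (n' + 1) ++ 1 :: (X (n' + 1 + c) ++ 2 :: (X (n' + 1) ++ [3, 1, 4, 2, 5, 1])))
    (X (n' + 1 + c) ++ 2 :: (X (n' + 1 + (n' + 1 - 1) * c) ++ 1 :: (X (n' + 1 + c) ++
      [3, 1, 4, 2, 5, 1])))
  rw [hlL, hlR]
  exact a8

end Pool.Agent.MWGX.H46
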